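import Pool.Agent.H29.CovPack

/-!
# MP_28ad66_co: covering families in `(ℤ/s)^q` for composite `s`

For a prime `p` and `m ≥ 1`, a covering family `F` in `(ℤ/pm)^q` satisfies
`|F| * ∑_{j ≤ ⌊(m-1)/2⌋} C(q, j) ≤ 2^q`.

Proof: reduce mod `p`. In the difference of two distinct members each residue mod `p` occurs at
least `m` times. Add to each member all indicator vectors of sets with at most `⌊(m-1)/2⌋`
elements; differences coming from distinct members still take the value `1`, and the polynomial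
functions `x ↦ ∏ (x_i - y_i - 1)` on `(ℤ/p)^q`, `y` in the enlarged family, are linearly
independent in a space of dimension `2^q`.

In particular `R(s, q) = o(2^q)` for each composite `s ≥ 6`, odd or even.
-/

open Finset Filter Asymptotics Pool.Agent.H29

namespace Pool.Agent.Results.MP_28ad66_co.Composite

lemma R_mul_sum_le {p m : ℕ} (hp : p.Prime) (hm : 0 < m) (q : ℕ) :
    R (p * m) q * ∑ j ∈ range ((m - 1) / 2 + 1), q.choose j ≤ 2 ^ q := by
  have : NeZero (p * m) := ⟨(Nat.mul_pos hp.pos hm).ne'⟩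
  obtain ⟨F, hF, hcard⟩ := exists_card_eq_R (p * m) q
  rw [← hcard]
  exact packing_bound hp hm hF

lemma R_isBigO {p m : ℕ} (hp : p.Prime) (hm : 0 < m) :
    (fun q : ℕ => (R (p * m) q : ℝ)) =O[atTop]
      fun q : ℕ => (2 : ℝ) ^ q / (q : ℝ) ^ ((m - 1) / 2) := by
  set t := (m - 1) / 2 with ht
  apply IsBigO.of_bound ((2 : ℝ) ^ t * t.factorial)
  filter_upwards [eventually_ge_atTop (2 * t + 1)] with q hq
  have hq0 : (0 : ℝ) < (q : ℝ) ^ t := by
    have : (0 : ℝ) < q := by exact_mod_cast (by omega : 0 < q)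
    positivity
  have h1 := R_mul_sum_le hp hm q
  have h2 : q.choose t ≤ ∑ j ∈ range (t + 1), q.choose j :=
    single_le_sum (f := fun j => q.choose j) (fun _ _ => Nat.zero_le _)
      (mem_range.mpr (Nat.lt_succ_self t))
  have h3 : (((q + 1 - t : ℕ) : ℝ) ^ t) / t.factorial ≤ (q.choose t : ℝ) :=
    Nat.pow_le_choose t q
  have h4 : (q : ℝ) ≤ 2 * ((q + 1 - t : ℕ) : ℝ) := by
    have : q ≤ 2 * (q + 1 - t) := by omega
    exact_mod_cast this
  have h5 : (q : ℝ) ^ t ≤ 2 ^ t * ((q + 1 - t : ℕ) : ℝ) ^ t := by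
    rw [← mul_pow]
    exact pow_le_pow_left₀ (by positivity) h4 t
  have hf : (0 : ℝ) < t.factorial := by exact_mod_cast t.factorial_pos
  have h6 : (q : ℝ) ^ t ≤ 2 ^ t * t.factorial * (q.choose t : ℝ) := by
    rw [div_le_iff₀ hf] at h3
    calc (q : ℝ) ^ t ≤ 2 ^ t * ((q + 1 - t : ℕ) : ℝ) ^ t := h5
      _ ≤ 2 ^ t * ((q.choose t : ℝ) * t.factorial) := by gcongr
      _ = _ := by ring
  have h7 : (R (p * m) q : ℝ) * (q.choose t : ℝ) ≤ 2 ^ q := by
    have : R (p * m) q * q.choose t ≤ 2 ^ q := (Nat.mul_le_mul_left _ h2).trans h1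
    exact_mod_cast this
  rw [Real.norm_of_nonneg (by positivity), Real.norm_of_nonneg (by positivity),
    ← mul_div_assoc, le_div_iff₀ hq0]
  calc (R (p * m) q : ℝ) * (q : ℝ) ^ t
      ≤ (R (p * m) q : ℝ) * (2 ^ t * t.factorial * (q.choose t : ℝ)) := by gcongr
    _ = 2 ^ t * t.factorial * ((R (p * m) q : ℝ) * (q.choose t : ℝ)) := by ring
    _ ≤ 2 ^ t * t.factorial * 2 ^ q := by gcongr

/-- **Theorem.** (1) For each prime `p` and `m ≥ 1`,
`R(pm, q) * ∑_{j ≤ ⌊(m-1)/2⌋} C(q, j) ≤ 2^q`.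
(2) Hence `R(pm, q) = O(2^q / q^⌊(m-1)/2⌋)`.
(3) `R(s, q) = o(2^q)` for every composite `s ≥ 6`. -/
theorem result :
    (∀ p m q : ℕ, p.Prime → 0 < m →
      R (p * m) q * ∑ j ∈ range ((m - 1) / 2 + 1), q.choose j ≤ 2 ^ q) ∧
    (∀ p m : ℕ, p.Prime → 0 < m →
      (fun q : ℕ => (R (p * m) q : ℝ)) =O[atTop]
        fun q : ℕ => (2 : ℝ) ^ q / (q : ℝ) ^ ((m - 1) / 2)) ∧
    (∀ s : ℕ, 6 ≤ s → ¬ s.Prime →
      (fun q : ℕ => (R s q : ℝ)) =o[atTop] fun q : ℕ => (2 : ℝ) ^ q) := by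
  refine ⟨fun p m q hp hm => R_mul_sum_le hp hm q, fun p m hp hm => R_isBigO hp hm, ?_⟩
  intro s hs hns
  have hp : s.minFac.Prime := Nat.minFac_prime (by omega)
  obtain ⟨m, hm⟩ := Nat.minFac_dvd s
  have hm0 : 0 < m := Nat.pos_of_ne_zero (by rintro rfl; omega)
  have hm3 : 3 ≤ m := by
    by_contra hlt
    have hm12 : m = 1 ∨ m = 2 := by omega
    rcases hm12 with rfl | rfl
    · rw [mul_one] at hm
      exact hns (hm ▸ hp)
    · have h2 : s.minFac ≤ 2 := Nat.minFac_le_of_dvd le_rfl (by rw [hm]; exact dvd_mul_left 2 _)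
      have := hp.two_le
      omega
  have h1 := R_isBigO hp hm0
  rw [← hm] at h1
  refine h1.trans_isLittleO ?_
  have ht : 1 ≤ (m - 1) / 2 := by omega
  have h2 : Tendsto (fun q : ℕ => (((q : ℝ) ^ ((m - 1) / 2))⁻¹)) atTop (nhds 0) := by
    apply Tendsto.inv_tendsto_atTop
    exact (tendsto_pow_atTop (by omega)).comp tendsto_natCast_atTop_atTop
  have h3 : (fun q : ℕ => (2 : ℝ) ^ q / (q : ℝ) ^ ((m - 1) / 2)) =
      fun q : ℕ => (2 : ℝ) ^ q * ((q : ℝ) ^ ((m - 1) / 2))⁻¹ := by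
    funext q; rw [div_eq_mul_inv]
  rw [h3]
  have h4 : (fun q : ℕ => ((q : ℝ) ^ ((m - 1) / 2))⁻¹) =o[atTop] fun _ : ℕ => (1 : ℝ) :=
    (isLittleO_one_iff ℝ).mpr h2
  simpa using (isBigO_refl (fun q : ℕ => (2 : ℝ) ^ q) atTop).mul_isLittleO h4

end Pool.Agent.Results.MP_28ad66_co.Composite
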