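import Pool.Agent.H29.CovLower

/-!
# MP_28ad66_co: the lower bound `R(3, q) ≥ C(q, k)` for `2 k ≠ q`
-/

open Finset Filter Pool.Agent.H29

namespace Pool.Agent.Results.MP_28ad66_co.LowerBound

/-- **Theorem.** `R(3, q) ≥ C(q, k)` whenever `2 k ≠ q`. -/
theorem result : ∀ q k : ℕ, 2 * k ≠ q → q.choose k ≤ R 3 q :=
  fun q k h => CovLower.lower q k h

end Pool.Agent.Results.MP_28ad66_co.LowerBound
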