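import Pool.Agent.H29.CovLower

/-!
# MP_28ad66_co: `R(3, q) = C(q, ⌊(q - 1) / 2⌋)` for `3 ≤ q ≤ 9`
-/

open Finset Filter Pool.Agent.H29

namespace Pool.Agent.Results.MP_28ad66_co.SmallExact

lemma card_filter_card (q : ℕ) (P : ℕ → Prop) [DecidablePred P] :
    #{S : Finset (Fin q) | P S.card} = ∑ j ∈ range (q + 1), if P j then q.choose j else 0 := by
  have h := Finset.sum_powerset_apply_card (fun j => if P j then (1 : ℕ) else 0)
    (x := (univ : Finset (Fin q)))
  rw [powerset_univ, card_univ, Fintype.card_fin] at h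
  rw [card_filter, h]
  refine sum_congr rfl fun j _ => ?_
  split_ifs <;> simp

lemma nEven_eq (q : ℕ) (r : ZMod 3) :
    nEven 3 q r = ∑ j ∈ range (q + 1), if ((j : ZMod 3) = r ∧ Even j) then q.choose j else 0 :=
  card_filter_card q fun j => ((j : ZMod 3) = r ∧ Even j)

lemma nOdd_eq (q : ℕ) (r : ZMod 3) :
    nOdd 3 q r = ∑ j ∈ range (q + 1), if ((j : ZMod 3) = r ∧ ¬ Even j) then q.choose j else 0 :=
  card_filter_card q fun j => ((j : ZMod 3) = r ∧ ¬ Even j)

lemma upper_even {q N : ℕ} (r : ZMod 3) (h1 : nEven 3 q r = N) (h2 : nOdd 3 q r < N) :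
    R 3 q ≤ N := by
  refine R_le_of_forall fun F hF => ?_
  rw [← h1]
  exact card_le_nEven hF r (by rw [h1]; exact h2)

lemma upper_odd {q N : ℕ} (r : ZMod 3) (h1 : nOdd 3 q r = N) (h2 : nEven 3 q r < N) :
    R 3 q ≤ N := by
  refine R_le_of_forall fun F hF => ?_
  rw [← h1]
  exact card_le_nOdd hF r (by rw [h1]; exact h2)

/-- **Theorem.** `R(3, q) = C(q, ⌊(q - 1) / 2⌋)` for `3 ≤ q ≤ 9`. -/
theorem result : ∀ q : ℕ, 3 ≤ q → q ≤ 9 → R 3 q = q.choose ((q - 1) / 2) := by
  intro q h3 h9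
  refine le_antisymm ?_ (CovLower.lower q _ (by omega))
  interval_cases q
  · exact upper_odd 1 (by rw [nOdd_eq]; decide) (by rw [nEven_eq]; decide)
  · exact upper_odd 1 (by rw [nOdd_eq]; decide) (by rw [nEven_eq]; decide)
  · exact upper_even 2 (by rw [nEven_eq]; decide) (by rw [nOdd_eq]; decide)
  · exact upper_even 2 (by rw [nEven_eq]; decide) (by rw [nOdd_eq]; decide)
  · exact upper_odd 0 (by rw [nOdd_eq]; decide) (by rw [nEven_eq]; decide)
  · exact upper_odd 0 (by rw [nOdd_eq]; decide) (by rw [nEven_eq]; decide)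
  · exact upper_even 1 (by rw [nEven_eq]; decide) (by rw [nOdd_eq]; decide)

end Pool.Agent.Results.MP_28ad66_co.SmallExact
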