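import Pool.Agent.H29.CovAsymp

/-!
# MP_28ad66_co: `limsup R(s, q) / 2^q ≤ 1 / lcm(2, s)`

For `v ∈ (ℤ/s)^q` and a set `S` of coordinates let `χ_S(v) = exp(2πi ∑_{i ∈ S} v_i / s)`. If `v - w`
takes all values then `∑_{|S| ≡ r (s)} (-1)^|S| χ_S(v - w) = 0` for all `r`. So the vectors
`(χ_S(v))_{|S| ≡ r}`, `v` in a covering family, are orthogonal for a diagonal form whose signs are
`(-1)^|S|`, and have equal norms. If the norm is positive, the family has at most as many members
as there are even sets in the class of `r`; if it is negative, odd sets.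
-/

open Finset Filter Pool.Agent.H29

namespace Pool.Agent.Results.MP_28ad66_co.UpperBound

/-- **Theorem.** `limsup_q R(s, q) / 2^q ≤ 1 / lcm(2, s)` for every `s ≥ 2`; in particular the
limsup is at most `1 / (2 s)` for odd `s` and at most `1 / 6` for `s = 3`. -/
theorem result :
    ∀ s : ℕ, 2 ≤ s → ∀ ε : ℝ, 0 < ε →
      ∀ᶠ q : ℕ in atTop, (R s q : ℝ) ≤ (1 / (Nat.lcm 2 s : ℝ) + ε) * 2 ^ q := by
  intro s hs ε hε
  have : NeZero s := ⟨by omega⟩
  exact R_asymp hs hε

end Pool.Agent.Results.MP_28ad66_co.UpperBound
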